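import Pool.Agent.ProjBody.Chain

/-!
Iterated projection bodies of every order exist at every Banach-Mazur distance between that of
the ball and that of the cube.
-/

open MeasureTheory Module Set
open scoped Pointwise

namespace Pool.Agent.Results.MP_05927b_gt.EveryDistance
open Pool.Agent.ProjBody

variable {n : ℕ}

theorem isProjectionBody_of_norm [NeZero n] {h : E n → ℝ} (hh : IsN h) :
    IsProjectionBody (Bd h) (Bd (P h)) := by
  have hP := hh.P
  obtain ⟨a, b, ha, hN⟩ := hh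
  obtain ⟨a', b', ha', hN'⟩ := hP
  refine ⟨Bd_isConvexBody ha hN, Bd_isConvexBody ha' hN', ?_⟩
  intro u hu
  rw [supportFn_Bd ha' hN']
  show sw (Bd h) u = _
  rw [sw_eq (Bd_compact ha hN) (Bd_convex h), hu, one_mul, brightness_eq_br _ hu]

theorem iterated_of_orbit [NeZero n] {M : ℕ → E n → ℝ} (hN : ∀ j, IsN (M j))
    (hM : ∀ j, P (M (j + 1)) = M j) (m : ℕ) :
    ∀ j, IsIteratedProjectionBody m (Bd (M (m + j))) (Bd (M j)) := by
  induction m with
  | zero => intro j; simp [IsIteratedProjectionBody]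
  | succ m ih =>
    intro j
    refine ⟨Bd (M (j + 1)), ?_, ?_⟩
    · have := ih (j + 1)
      have e : m + (j + 1) = m + 1 + j := by ring
      rwa [e] at this
    · have := isProjectionBody_of_norm (hN (j + 1))
      rwa [hM] at this

theorem ofEveryOrder_of_orbit [NeZero n] {M : ℕ → E n → ℝ} (hN : ∀ j, IsN (M j))
    (hM : ∀ j, P (M (j + 1)) = M j) : OfEveryOrder (Bd (M 0)) := by
  intro m _
  refine ⟨Bd (M m), ?_, ?_⟩
  · obtain ⟨a, b, ha, h⟩ := hN m
    exact Bd_isConvexBody ha h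
  · simpa using iterated_of_orbit hN hM m 0

theorem ballSandwich_iff [NeZero n] {h : E n → ℝ} (hh : IsN h) (s : ℝ) :
    BallSandwich (Bd h) s ↔ NearF h s := by
  have key : ∀ T : E n ≃L[ℝ] E n,
      (Metric.closedBall 0 1 ⊆ adj T '' Bd h ∧ adj T '' Bd h ⊆ Metric.closedBall 0 s) ↔
      ∀ u, ‖u‖ ≤ h (T u) ∧ h (T u) ≤ s * ‖u‖ := by
    intro T
    rw [← Bd_comp]
    obtain ⟨a, b, ha, hg⟩ := hh.comp T
    set g : E n → ℝ := fun u => h (T u) with hgdef
    constructor
    · rintro ⟨h1, h2⟩ u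
      constructor
      · rcases eq_or_ne u 0 with rfl | hu
        · rw [norm_zero]
          exact le_of_eq hg.zero.symm
        · have hu' : 0 < ‖u‖ := norm_pos_iff.2 hu
          have hx : ‖u‖⁻¹ • u ∈ Metric.closedBall (0 : E n) 1 := by
            rw [Metric.mem_closedBall, dist_zero_right, norm_smul, norm_inv, norm_norm,
              inv_mul_cancel₀ hu'.ne']
          have := h1 hx u
          rw [real_inner_smul_left, real_inner_self_eq_norm_sq, sq, ← mul_assoc,
            inv_mul_cancel₀ hu'.ne', one_mul] at this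
          exact this
      · obtain ⟨x, hx, hxu⟩ := exists_support ha hg u
        have hx2 := h2 hx
        rw [Metric.mem_closedBall, dist_zero_right] at hx2
        calc g u = inner ℝ x u := hxu.symm
          _ ≤ ‖x‖ * ‖u‖ := real_inner_le_norm _ _
          _ ≤ s * ‖u‖ := by gcongr
    · intro h1
      constructor
      · exact ball_subset_Bd fun u => by rw [one_mul]; exact (h1 u).1
      · have hs : 0 ≤ s := by
          have : 1 ≤ s := NearF.one_le (h := h) ⟨T, h1⟩
          linarith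
        exact Bd_subset_ball hs fun u => (h1 u).2
  constructor
  · rintro ⟨T, hT⟩
    refine ⟨adj T, (key (adj T)).1 ?_⟩
    rw [adj_adj]
    exact hT
  · rintro ⟨T, hT⟩
    exact ⟨adj T, (key T).2 hT⟩

theorem distToBall_Bd [NeZero n] {h : E n → ℝ} (hh : IsN h) : distToBall (Bd h) = DF h := by
  unfold distToBall DF
  congr 1
  ext s
  exact ballSandwich_iff hh s

theorem sqrt_two_le_of_directSum {K : Set (E n)} (hK : IsDirectSum K) {s : ℝ}
    (hs : BallSandwich K s) : Real.sqrt 2 ≤ s := by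
  obtain ⟨V, W, hVW, hV, hW, A, B, hA, hB, rfl⟩ := hK
  obtain ⟨T, hT1, hT2⟩ := hs
  -- unit vectors in the images of V and W
  obtain ⟨v, hv, hv0⟩ := Submodule.exists_mem_ne_zero_of_ne_bot hV
  obtain ⟨w, hw, hw0⟩ := Submodule.exists_mem_ne_zero_of_ne_bot hW
  have hTv : T v ≠ 0 := fun h => hv0 (by
    rw [← ContinuousLinearEquiv.symm_apply_apply T v, h, map_zero])
  have hTw : T w ≠ 0 := fun h => hw0 (by
    rw [← ContinuousLinearEquiv.symm_apply_apply T w, h, map_zero])
  have hTv' : 0 < ‖T v‖ := norm_pos_iff.2 hTv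
  have hTw' : 0 < ‖T w‖ := norm_pos_iff.2 hTw
  set p := ‖T v‖⁻¹ • v with hp
  set q := ‖T w‖⁻¹ • w with hq
  have hpV : p ∈ V := V.smul_mem _ hv
  have hqW : q ∈ W := W.smul_mem _ hw
  have hTp : ‖T p‖ = 1 := by
    rw [hp, map_smul, norm_smul, norm_inv, norm_norm, inv_mul_cancel₀ hTv'.ne']
  have hTq : ‖T q‖ = 1 := by
    rw [hq, map_smul, norm_smul, norm_inv, norm_norm, inv_mul_cancel₀ hTw'.ne']
  have hmem : ∀ z : E n, ‖T z‖ = 1 → ∃ x ∈ A, ∃ y ∈ B, z = x + y := by
    intro z hz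
    have h1 : T z ∈ Metric.closedBall (0 : E n) 1 := by
      rw [Metric.mem_closedBall, dist_zero_right, hz]
    obtain ⟨z', hz', hzz⟩ := hT1 h1
    have : z' = z := T.injective hzz
    rw [← this]
    exact hz'
  have hdis := hVW.disjoint
  have hVmem : ∀ z ∈ V, ‖T z‖ = 1 → z ∈ A := by
    intro z hz h1
    obtain ⟨x, hx, y, hy, hxy⟩ := hmem z h1
    have e1 : z - x ∈ V := V.sub_mem hz (hA hx)
    have e2 : z - x = y := by rw [hxy]; abel
    have e3 : z - x ∈ W := by rw [e2]; exact hB hy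
    have e4 : z - x = 0 := (Submodule.disjoint_def.1 hdis) _ e1 e3
    rw [sub_eq_zero.1 e4]
    exact hx
  have hWmem : ∀ z ∈ W, ‖T z‖ = 1 → z ∈ B := by
    intro z hz h1
    obtain ⟨x, hx, y, hy, hxy⟩ := hmem z h1
    have e1 : z - y ∈ W := W.sub_mem hz (hB hy)
    have e2 : z - y = x := by rw [hxy]; abel
    have e3 : z - y ∈ V := by rw [e2]; exact hA hx
    have e4 : z - y = 0 := (Submodule.disjoint_def.1 hdis) _ e3 e1
    rw [sub_eq_zero.1 e4]
    exact hy
  have hpA : p ∈ A := hVmem p hpV hTp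
  have hqB : q ∈ B := hWmem q hqW hTq
  have hqB' : -q ∈ B := hWmem (-q) (W.neg_mem hqW) (by rw [map_neg, norm_neg, hTq])
  have h1 : ‖T (p + q)‖ ≤ s := by
    have := hT2 ⟨p + q, ⟨p, hpA, q, hqB, rfl⟩, rfl⟩
    rwa [Metric.mem_closedBall, dist_zero_right] at this
  have h2 : ‖T (p - q)‖ ≤ s := by
    have := hT2 ⟨p + -q, ⟨p, hpA, -q, hqB', rfl⟩, rfl⟩
    rw [Metric.mem_closedBall, dist_zero_right] at this
    rwa [sub_eq_add_neg]
  have hpar := parallelogram_law_with_norm ℝ (T p) (T q)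
  rw [hTp, hTq, ← map_add, ← map_sub] at hpar
  have hs0 : 0 ≤ s := (norm_nonneg _).trans h1
  rw [Real.sqrt_le_left hs0]
  nlinarith [norm_nonneg (T (p + q)), norm_nonneg (T (p - q))]

/-- For every `n ≥ 3` and every `r` in `[1, √n]` there is a convex body in Euclidean `n`-space
that is an iterated projection body of every order and whose Banach-Mazur distance to the ball is
exactly `r`; if `1 < r` it is not an ellipsoid, and if `r < √2` it is not a direct sum. -/
theorem result (n : ℕ) (hn : 3 ≤ n) (r : ℝ) (h1 : 1 ≤ r) (h2 : r ≤ Real.sqrt n) :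
    ∃ K : Set (E n), OfEveryOrder K ∧ (∃ s, BallSandwich K s) ∧ distToBall K = r ∧
      (1 < r → ¬ IsEllipsoid K) ∧ (r < Real.sqrt 2 → ¬ IsDirectSum K) := by
  have : NeZero n := ⟨by omega⟩
  obtain ⟨M, hN, hM, hr⟩ := exists_orbit (n := n) (by omega) h1 h2
  have hd : distToBall (Bd (M 0)) = r := by rw [distToBall_Bd (hN 0), hr]
  have hne : ∃ s, BallSandwich (Bd (M 0)) s := by
    obtain ⟨s, hs⟩ := (hN 0).near
    exact ⟨s, (ballSandwich_iff (hN 0) s).2 hs⟩
  refine ⟨Bd (M 0), ofEveryOrder_of_orbit hN hM, hne, hd, ?_, ?_⟩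
  · rintro hr1 ⟨T, hT⟩
    have hbs : BallSandwich (Bd (M 0)) 1 := by
      refine ⟨T.symm, ?_, ?_⟩
      · rw [hT, ← image_comp]; simp
      · rw [hT, ← image_comp]; simp
    have := DF_le ((ballSandwich_iff (hN 0) 1).1 hbs)
    rw [hr] at this
    linarith
  · intro hr2 hds
    have : Real.sqrt 2 ≤ distToBall (Bd (M 0)) :=
      le_csInf hne fun s hs => sqrt_two_le_of_directSum hds hs
    rw [hd] at this
    linarith

end Pool.Agent.Results.MP_05927b_gt.EveryDistance
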